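import Pool.Agent.L7h49.WN.Def

set_option autoImplicit false

/-! Project WN, part TIG: walks of almost minimal length in one copy. -/

namespace Pool.Agent.L7h29.WN

open Pool.Agent.L7h49.WN

theorem select (f : ℕ → ℝ) (C : ℝ) (hC : ∀ j, |f j| ≤ C) (n : ℕ) :
    ∀ m : ℕ, m ≤ n → ∃ T : Finset ℕ, T ⊆ Finset.range n ∧ T.card = m ∧ ∃ u : ℝ, |u| ≤ C ∧
      (∀ j ∈ T, u ≤ f j) ∧ ∀ j ∈ Finset.range n, j ∉ T → f j ≤ u := by
  intro m
  induction m with
  | zero =>
    intro _
    have hC0 : 0 ≤ C := (abs_nonneg _).trans (hC 0)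
    exact ⟨∅, by simp, rfl, C, by rw [abs_of_nonneg hC0], by simp,
      fun j _ _ => (le_abs_self _).trans (hC j)⟩
  | succ m ih =>
    intro hm
    obtain ⟨T, hT, hTc, u, hu, h1, h2⟩ := ih (by omega)
    have hne : (Finset.range n \ T).Nonempty := by
      rw [← Finset.card_pos, Finset.card_sdiff_of_subset hT, Finset.card_range]
      omega
    obtain ⟨j0, hj0, hmax⟩ := Finset.exists_max_image _ f hne
    rw [Finset.mem_sdiff] at hj0
    refine ⟨insert j0 T, ?_, ?_, f j0, hC j0, ?_, ?_⟩
    · intro x hx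
      rcases Finset.mem_insert.1 hx with rfl | hx
      · exact hj0.1
      · exact hT hx
    · rw [Finset.card_insert_of_notMem hj0.2, hTc]
    · intro j hj
      rcases Finset.mem_insert.1 hj with rfl | hj
      · exact le_rfl
      · exact (h2 j0 hj0.1 hj0.2).trans (h1 j hj)
    · intro j hj hjT
      rw [Finset.mem_insert, not_or] at hjT
      exact hmax j (Finset.mem_sdiff.2 ⟨hj, hjT.2⟩)

theorem norm_zeta : ‖zeta‖ = 1 := by
  unfold zeta
  rw [norm_div, Complex.norm_real, Real.norm_of_nonneg (Real.sqrt_nonneg 2)]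
  have : ‖(1 + Complex.I : ℂ)‖ = √2 := by
    rw [Complex.norm_def, Complex.normSq_apply]
    norm_num
  rw [this]
  exact div_self (by positivity)

theorem norm_pos (s : Fin 4) (k i k' i' : ℤ) :
    ‖pos (s, k', i') - pos (s, k, i)‖ =
      √(((k' : ℝ) - k) ^ 2 + (((k' : ℝ) - k) / 2 + (i' - i)) ^ 2) := by
  have : pos (s, k', i') - pos (s, k, i) = zeta ^ (s : ℕ) * ((((k' : ℝ) - k : ℝ) : ℂ) +
      ((((k' : ℝ) - k) / 2 + (i' - i) : ℝ) : ℂ) * Complex.I) := by
    unfold pos
    push_cast
    ring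
  rw [this, norm_mul, norm_pow, norm_zeta, one_pow, one_mul, Complex.norm_add_mul_I]

theorem wt_concat {x y z : V} (p : G.Walk x y) (h : G.Adj y z) :
    wt (p.concat h) = wt p + om y z := by
  unfold wt
  rw [SimpleGraph.Walk.darts_concat, List.concat_eq_append, List.map_append, List.sum_append]
  simp

theorem om1 (s : Fin 4) (k i : ℤ) : om (s, k, i) (s, k + 1, i) = 1 + max (a k) 0 := by
  unfold om
  rw [if_pos ⟨rfl, rfl, rfl⟩]

theorem om2 (s : Fin 4) (k i : ℤ) : om (s, k, i) (s, k + 1, i - 1) = 1 + max (-a k) 0 := by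
  unfold om
  rw [if_neg, if_neg, if_pos ⟨rfl, rfl, rfl⟩]
  · rintro ⟨-, h, -⟩
    simp only at h
    omega
  · rintro ⟨-, -, h⟩
    simp only at h
    omega

theorem adj1 (s : Fin 4) (k i : ℤ) : G.Adj (s, k, i) (s, k + 1, i) := by
  refine ⟨fun h => ?_, ?_⟩
  · have := congrArg (fun v : V => v.2.1) h
    simp only at this
    omega
  · rw [norm_sub_rev, norm_pos, Real.sqrt_le_iff]
    refine ⟨by norm_num, ?_⟩
    push_cast
    ring_nf
    norm_num

theorem adj2 (s : Fin 4) (k i : ℤ) : G.Adj (s, k, i) (s, k + 1, i - 1) := by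
  refine ⟨fun h => ?_, ?_⟩
  · have := congrArg (fun v : V => v.2.1) h
    simp only at this
    omega
  · rw [norm_sub_rev, norm_pos, Real.sqrt_le_iff]
    refine ⟨by norm_num, ?_⟩
    push_cast
    ring_nf
    norm_num

theorem s_TIG (hP : S_POT) : S_TIG := by
  classical
  intro s k i n m hmn
  obtain ⟨hA, hPot⟩ := hP
  obtain ⟨T, hT, hTc, u, hu, h1, h2⟩ :=
    select (fun j => a (k + j)) (1 / √5) (fun j => hA _) n m hmn
  have h5 : (1 : ℝ) / √5 ≤ 1 := by
    rw [div_le_one (by positivity)]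
    exact Real.one_le_sqrt.2 (by norm_num)
  have hu1 : |u| ≤ 1 := hu.trans h5
  obtain ⟨H, hH1, -, -, -, -, hH6⟩ := hPot u hu1
  have hE := hH6 hu
  let c : ℕ → ℕ := fun j => (T.filter (· < j)).card
  have hc0 : c 0 = 0 := by simp [c]
  have hcs : ∀ j, j ∈ T → c (j + 1) = c j + 1 := by
    intro j hj
    have : T.filter (· < j + 1) = insert j (T.filter (· < j)) := by
      ext x
      simp only [Finset.mem_filter, Finset.mem_insert]
      constructor
      · rintro ⟨hx, hxj⟩
        rcases Nat.lt_succ_iff_lt_or_eq.1 hxj with h | h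
        · exact Or.inr ⟨hx, h⟩
        · exact Or.inl h
      · rintro (rfl | ⟨hx, hxj⟩)
        · exact ⟨hj, Nat.lt_succ_self _⟩
        · exact ⟨hx, hxj.trans (Nat.lt_succ_self _)⟩
    show (T.filter (· < j + 1)).card = _
    rw [this, Finset.card_insert_of_notMem (by simp)]
  have hcn : ∀ j, j ∉ T → c (j + 1) = c j := by
    intro j hj
    have : T.filter (· < j + 1) = T.filter (· < j) := by
      ext x
      simp only [Finset.mem_filter]
      constructor
      · rintro ⟨hx, hxj⟩
        rcases Nat.lt_succ_iff_lt_or_eq.1 hxj with h | h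
        · exact ⟨hx, h⟩
        · exact absurd (h ▸ hx) hj
      · rintro ⟨hx, hxj⟩
        exact ⟨hx, hxj.trans (Nat.lt_succ_self _)⟩
    show (T.filter (· < j + 1)).card = _
    rw [this]
  have hcm : c n = m := by
    have : T.filter (· < n) = T := by
      apply Finset.filter_true_of_mem
      intro x hx
      exact Finset.mem_range.1 (hT hx)
    show (T.filter (· < n)).card = _
    rw [this, hTc]
  have key : ∀ j : ℕ, j ≤ n → ∀ v : V, v = (s, k + j, i - c j) →
      ∃ p : G.Walk (s, k, i) v, wt p = H (k + j) - H k - c j * u := by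
    intro j
    induction j with
    | zero =>
      intro _ v hv
      have hv' : v = (s, k, i) := by rw [hv, hc0]; simp
      subst hv'
      refine ⟨SimpleGraph.Walk.nil, ?_⟩
      rw [hc0]
      simp [wt]
    | succ j ih =>
      intro hj v hv
      obtain ⟨p, hp⟩ := ih (by omega) _ rfl
      by_cases hjT : j ∈ T
      · have hv' : v = (s, (k + j) + 1, (i - c j) - 1) := by
          rw [hv, hcs j hjT]
          push_cast
          rw [add_assoc, sub_sub]
        subst hv'
        refine ⟨p.concat (adj2 s (k + j) (i - c j)), ?_⟩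
        have e := (hE (k + j)).2 (h1 j hjT)
        rw [wt_concat, om2, hp, hcs j hjT, ← e]
        push_cast
        rw [add_assoc]
        ring
      · have hv' : v = (s, (k + j) + 1, i - c j) := by
          rw [hv, hcn j hjT]
          push_cast
          rw [add_assoc]
        subst hv'
        refine ⟨p.concat (adj1 s (k + j) (i - c j)), ?_⟩
        have e := (hE (k + j)).1 (h2 j (Finset.mem_range.2 (by omega)) hjT)
        rw [wt_concat, om1, hp, hcn j hjT, ← e]
        push_cast
        rw [add_assoc]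
        ring
  obtain ⟨p, hp⟩ := key n le_rfl (s, k + n, i - m) (by rw [hcm])
  refine ⟨p, ?_⟩
  rw [hp, norm_pos, hcm]
  have b1 := abs_le.1 (hH1 (k + n))
  have b2 := abs_le.1 (hH1 k)
  have hq0 : 0 ≤ 1 - u ^ 2 := by
    have := sq_abs u
    nlinarith [abs_nonneg u]
  have hq := Real.sq_sqrt hq0
  set q := √(1 - u ^ 2) with hqdef
  have hcs' : (n : ℝ) * q + ((n : ℝ) / 2 - m) * u ≤
      √(((((k + n : ℤ) : ℝ) - k)) ^ 2 + ((((k + n : ℤ) : ℝ) - k) / 2 + (((i - m : ℤ) : ℝ) - i)) ^ 2) := by
    refine (le_abs_self _).trans (Real.abs_le_sqrt ?_)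
    push_cast
    have e1 : (k : ℝ) + n - k = n := by ring
    have e2 : (i : ℝ) - m - i = -m := by ring
    rw [e1, e2]
    nlinarith [sq_nonneg ((n : ℝ) * u - ((n : ℝ) / 2 - m) * q)]
  push_cast at b1
  have : H (k + n) - H k - m * u ≤ (n : ℝ) * q + ((n : ℝ) / 2 - m) * u + 40 := by
    nlinarith [b1.2, b2.1]
  linarith

end Pool.Agent.L7h29.WN
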